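import Pool.Agent.Helper20.RG.St1

/-!
# Project RG, module U3
-/

set_option autoImplicit false

open MeasureTheory Set Filter Topology
open scoped ENNReal RealInnerProductSpace

namespace Pool.Agent.Helper4.RG

open Pool.Agent.Helper20.RG
open Pool.Agent.Helper68.LM (Pl)

theorem enorm_sq_u3 (z : ℂ) : ‖z‖ₑ ^ 2 = ENNReal.ofReal (‖z‖ ^ 2) := by
  rw [ENNReal.ofReal_pow (norm_nonneg _), ofReal_norm]

/-- the four bounds of the difference -/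
theorem dbd_u3 {C₁ : ℝ} (hC₁ : 1 ≤ C₁)
    (hM : ∀ (s : ℝ) (c : Pl) (m m' : ℕ) (ℓ : ℝ) (ξ : Pl), |s| ≤ 1 → m' ≤ m → 0 < ℓ →
      ‖Zh s c m m' ℓ ξ‖ ≤ C₁ ∧
      ‖Zh s c m m' ℓ ξ‖ ≤ C₁ * (‖ξ‖ * (2 : ℝ) ^ (-(m' : ℤ))) ∧
      ‖Zh s c m m' ℓ ξ‖ * ‖ξ‖ ≤ C₁ * (2 : ℝ) ^ m ∧
      ‖Zh s c m m' ℓ ξ‖ * (ℓ * |⟪E s, ξ⟫|) ≤ C₁ ∧
      (∀ ℓ' : ℝ, ℓ ≤ ℓ' → ‖Zh s c m m' ℓ ξ - Zh s c m m' ℓ' ξ‖ ≤ C₁ * (ℓ' * |⟪E s, ξ⟫|)))
    (s : ℝ) (c : Pl) (m m' w w' : ℕ) (η : Pl) (hs : |s| ≤ 1) (hm : m' ≤ m) (hw : w ≤ w') :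
    ‖Zh s c m m' ((2 : ℝ) ^ w) η - Zh s c m m' ((2 : ℝ) ^ w') η‖ ≤ 2 * C₁ ∧
    ‖Zh s c m m' ((2 : ℝ) ^ w) η - Zh s c m m' ((2 : ℝ) ^ w') η‖ ≤
      C₁ * ((2 : ℝ) ^ w' * |⟪E s, η⟫|) ∧
    ‖Zh s c m m' ((2 : ℝ) ^ w) η - Zh s c m m' ((2 : ℝ) ^ w') η‖ *
      ((2 : ℝ) ^ w * |⟪E s, η⟫|) ≤ 2 * C₁ ∧
    ‖Zh s c m m' ((2 : ℝ) ^ w) η - Zh s c m m' ((2 : ℝ) ^ w') η‖ ≤ 2 * C₁ * ‖η‖ := by
  have hw2 : (2 : ℝ) ^ w ≤ 2 ^ w' := pow_le_pow_right₀ one_le_two hw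
  obtain ⟨a1, a2, -, a4, a5⟩ := hM s c m m' ((2 : ℝ) ^ w) η hs hm (by positivity)
  obtain ⟨b1, b2, -, b4, -⟩ := hM s c m m' ((2 : ℝ) ^ w') η hs hm (by positivity)
  have htri := norm_sub_le (Zh s c m m' ((2 : ℝ) ^ w) η) (Zh s c m m' ((2 : ℝ) ^ w') η)
  have hm2 : (2 : ℝ) ^ (-(m' : ℤ)) ≤ 1 := zpow_le_one_of_nonpos₀ one_le_two (by omega)
  refine ⟨by linarith, a5 _ hw2, ?_, ?_⟩
  · have e1 : ‖Zh s c m m' ((2 : ℝ) ^ w') η‖ * ((2 : ℝ) ^ w * |⟪E s, η⟫|) ≤ C₁ := by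
      refine le_trans ?_ b4
      gcongr
    calc _ ≤ (‖Zh s c m m' ((2 : ℝ) ^ w) η‖ + ‖Zh s c m m' ((2 : ℝ) ^ w') η‖) *
          ((2 : ℝ) ^ w * |⟪E s, η⟫|) := by gcongr
      _ ≤ 2 * C₁ := by
        rw [add_mul]
        linarith
  · have e1 : C₁ * (‖η‖ * (2 : ℝ) ^ (-(m' : ℤ))) ≤ C₁ * ‖η‖ := by
      have : ‖η‖ * (2 : ℝ) ^ (-(m' : ℤ)) ≤ ‖η‖ := mul_le_of_le_one_right (norm_nonneg _) hm2
      gcongr
    linarith

/-- the theorem StU3 -/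
theorem hU3 (hPT : StPT) (hMB : StMB) (hU1 : StU1) (hOCT : StOCT) : StU3 := by
  obtain ⟨C₁, hC₁, hM⟩ := hMB
  obtain ⟨-, -, hco, hin0, -⟩ := hPT
  intro C₀ hC₀
  obtain ⟨C₂, hC₂, hU⟩ := hU1 C₀ hC₀
  refine ⟨9 * (8 * C₁ * C₂ + 64 * C₁ ^ 2) + 36 * C₁ ^ 2, by positivity, ?_⟩
  intro u s c m m' R K A σ hS hA W w w' T hu huW hWw hww' hw'W hT ξ hξ
  have hr : 0 < ‖ξ‖ := norm_pos_iff.2 hξ
  set r := ‖ξ‖ with hrdef
  -- abbreviations
  set D : ℕ → Pl → ℂ := fun j η =>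
    Zh (s j) (c j) (m j) (m' j) ((2 : ℝ) ^ w) η - Zh (s j) (c j) (m j) (m' j) ((2 : ℝ) ^ w') η
    with hDdef
  set b : ℕ → ℝ := fun j => |⟪E (s j), ξ⟫| with hbdef
  have hb0 : ∀ j, 0 ≤ b j := fun j => abs_nonneg _
  have hin : ∀ (j : ℕ) (k : ℤ), |⟪E (s j), (2 : ℝ) ^ k • ξ⟫| = (2 : ℝ) ^ k * b j := by
    intro j k
    rw [real_inner_smul_right, abs_mul, abs_of_pos (by positivity : (0 : ℝ) < (2 : ℝ) ^ k)]
  have hno : ∀ k : ℤ, ‖(2 : ℝ) ^ k • ξ‖ = (2 : ℝ) ^ k * r := by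
    intro k
    rw [norm_smul, Real.norm_of_nonneg (by positivity)]
  have hne : ∀ k : ℤ, (2 : ℝ) ^ k • ξ ≠ 0 := by
    intro k
    exact smul_ne_zero (by positivity) hξ
  have hD : ∀ j < 2 ^ u, ∀ k : ℤ, ‖D j ((2 : ℝ) ^ k • ξ)‖ ≤ 2 * C₁ ∧
      ‖D j ((2 : ℝ) ^ k • ξ)‖ ≤ C₁ * ((2 : ℝ) ^ w' * ((2 : ℝ) ^ k * b j)) ∧
      ‖D j ((2 : ℝ) ^ k • ξ)‖ * ((2 : ℝ) ^ w * ((2 : ℝ) ^ k * b j)) ≤ 2 * C₁ ∧
      ‖D j ((2 : ℝ) ^ k • ξ)‖ ≤ 2 * C₁ * ((2 : ℝ) ^ k * r) := by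
    intro j hj k
    have h := dbd_u3 hC₁ hM (s j) (c j) (m j) (m' j) w w' ((2 : ℝ) ^ k • ξ) (hS.slope j hj)
      (hS.mm j hj).1 hww'
    rw [hin j k, hno k] at h
    exact h
  have hC₁0 : 0 < C₁ := by linarith
  have hW1 : 1 ≤ W := by omega
  have hW1r : (1 : ℝ) ≤ W := by exact_mod_cast hW1
  have hT1r : (1 : ℝ) ≤ T := by exact_mod_cast hT
  have huWr : (u : ℝ) ≤ W := by exact_mod_cast huW
  classical
  set Cl : Finset ℕ := (Finset.range (2 ^ u)).filter (fun j => b j ≤ (2 : ℝ) ^ (-(T : ℤ)) * r / 4)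
    with hCl
  set Nc : Finset ℕ :=
    (Finset.range (2 ^ u)).filter (fun j => ¬ b j ≤ (2 : ℝ) ^ (-(T : ℤ)) * r / 4) with hNc
  set Q : ℝ := (2 : ℝ) ^ u * (A * (T : ℝ) ^ (-(1 / σ))) with hQ
  have hQ0 : 0 ≤ Q := by positivity
  -- cardinality of the close indices
  have hcard : (Cl.card : ℝ) ≤ 1 + Q := by
    have hE : ∀ j, ⟪E (s j), ξ⟫ = ξ 0 + s j * ξ 1 := by
      intro j
      rw [hin0]
      have e0 : (E (s j)) 0 = 1 := by simp [E, pt]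
      have e1 : (E (s j)) 1 = s j := by simp [E, pt]
      rw [e0, e1]
      ring
    rcases le_or_gt (r / 4) |ξ 1| with h | h
    · have hx1 : ξ 1 ≠ 0 := by
        intro h0
        rw [h0, abs_zero] at h
        linarith
      have hsep := hS.sep (-ξ 0 / ξ 1) T hT
      refine le_trans ?_ hsep
      rw [← Set.ncard_coe_finset]
      have hfin : {j : ℕ | j < 2 ^ u ∧ |s j - -ξ 0 / ξ 1| ≤ (2 : ℝ) ^ (-(T : ℤ))}.Finite :=
        (Set.finite_lt_nat (2 ^ u)).subset (fun j hj => hj.1)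
      have hsub : (Cl : Set ℕ) ⊆
          {j : ℕ | j < 2 ^ u ∧ |s j - -ξ 0 / ξ 1| ≤ (2 : ℝ) ^ (-(T : ℤ))} := by
        intro j hj
        have hj2 := Finset.mem_filter.1 (Finset.mem_coe.1 hj)
        refine ⟨Finset.mem_range.1 hj2.1, ?_⟩
        have e1 : s j - -ξ 0 / ξ 1 = (ξ 0 + s j * ξ 1) / ξ 1 := by
          field_simp
          ring
        have hx1' : 0 < |ξ 1| := abs_pos.2 hx1
        rw [e1, abs_div, ← hE j, div_le_iff₀ hx1']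
        have e2 : b j ≤ (2 : ℝ) ^ (-(T : ℤ)) * r / 4 := hj2.2
        have e3 : (2 : ℝ) ^ (-(T : ℤ)) * (r / 4) ≤ (2 : ℝ) ^ (-(T : ℤ)) * |ξ 1| := by
          gcongr
        calc |⟪E (s j), ξ⟫| = b j := rfl
          _ ≤ _ := by linarith
      exact_mod_cast Set.ncard_le_ncard hsub hfin
    · have hempty : Cl = ∅ := by
        rw [hCl]
        apply Finset.filter_false_of_mem
        intro j hj hbj
        have hj2 := Finset.mem_range.1 hj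
        have hs1 := hS.slope j hj2
        have e1 := (hco ξ).2.2.1
        have e2 : |s j * ξ 1| ≤ |ξ 1| := by
          rw [abs_mul]
          exact mul_le_of_le_one_left (abs_nonneg _) hs1
        have e3 : |ξ 0| - |s j * ξ 1| ≤ b j := by
          have := abs_sub_abs_le_abs_sub (ξ 0) (-(s j * ξ 1))
          rw [abs_neg, sub_neg_eq_add] at this
          calc |ξ 0| - |s j * ξ 1| ≤ |ξ 0 + s j * ξ 1| := this
            _ = b j := by rw [hbdef]; simp only [hE j]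
        have e4 : (2 : ℝ) ^ (-(T : ℤ)) ≤ 1 := zpow_le_one_of_nonpos₀ one_le_two (by omega)
        have e5 : (2 : ℝ) ^ (-(T : ℤ)) * r ≤ r := mul_le_of_le_one_left hr.le e4
        linarith
      rw [hempty]
      simp only [Finset.card_empty, Nat.cast_zero]
      linarith
  -- the close part
  have hclose : ∀ j ∈ Cl, ∑' k : ℤ, ‖D j ((2 : ℝ) ^ k • ξ)‖ₑ ^ 2 ≤
      ENNReal.ofReal (36 * C₁ ^ 2 * W) := by
    intro j hj
    have hj2 := Finset.mem_range.1 (Finset.mem_filter.1 hj).1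
    rcases (hb0 j).eq_or_lt with h0 | h0
    · have hz : ∀ k : ℤ, ‖D j ((2 : ℝ) ^ k • ξ)‖ₑ ^ 2 = 0 := by
        intro k
        have h1 := (hD j hj2 k).2.1
        rw [← h0, mul_zero, mul_zero, mul_zero] at h1
        have h2 : ‖D j ((2 : ℝ) ^ k • ξ)‖ = 0 := le_antisymm h1 (norm_nonneg _)
        rw [enorm_sq_u3, h2]
        simp
      rw [tsum_congr hz, tsum_zero]
      exact bot_le
    · have h := hOCT (fun k => ‖D j ((2 : ℝ) ^ k • ξ)‖ₑ ^ 2) (b j) (4 * C₁ ^ 2) (-(w' : ℤ))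
        (-(w : ℤ)) h0 (by positivity) (by omega) ?_ ?_ ?_
      · refine h.trans (ENNReal.ofReal_le_ofReal ?_)
        have e1 : (w' : ℝ) ≤ 2 * W := by exact_mod_cast hw'W
        have e2 : (W : ℝ) ≤ w := by exact_mod_cast hWw
        push_cast
        have e3 : (-(w : ℝ)) - (-(w' : ℝ)) + 8 ≤ 9 * W := by linarith
        calc 4 * C₁ ^ 2 * ((-(w : ℝ)) - (-(w' : ℝ)) + 8) ≤ 4 * C₁ ^ 2 * (9 * W) := by gcongr
          _ = 36 * C₁ ^ 2 * W := by ring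
      · intro k
        rw [enorm_sq_u3]
        apply ENNReal.ofReal_le_ofReal
        have h1 := (hD j hj2 k).1
        calc ‖D j ((2 : ℝ) ^ k • ξ)‖ ^ 2 ≤ (2 * C₁) ^ 2 := by gcongr
          _ = 4 * C₁ ^ 2 := by ring
      · intro k hk
        rw [enorm_sq_u3]
        apply ENNReal.ofReal_le_ofReal
        have h1 := (hD j hj2 k).2.1
        have e0 : (2 : ℝ) ^ (-(w' : ℤ)) = ((2 : ℝ) ^ w')⁻¹ := by
          rw [zpow_neg, zpow_natCast]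
        rw [e0] at hk ⊢
        have e1 : (2 : ℝ) ^ k * b j / ((2 : ℝ) ^ w')⁻¹ = (2 : ℝ) ^ w' * ((2 : ℝ) ^ k * b j) := by
          rw [div_inv_eq_mul]
          ring
        rw [e1]
        set x := (2 : ℝ) ^ w' * ((2 : ℝ) ^ k * b j) with hx
        have hx0 : 0 ≤ x := by positivity
        have hx1 : x ≤ 1 := by
          rw [hx]
          calc (2 : ℝ) ^ w' * ((2 : ℝ) ^ k * b j) ≤ (2 : ℝ) ^ w' * ((2 : ℝ) ^ w')⁻¹ := by gcongr
            _ = 1 := mul_inv_cancel₀ (by positivity)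
        calc ‖D j ((2 : ℝ) ^ k • ξ)‖ ^ 2 ≤ (C₁ * x) ^ 2 := by gcongr
          _ = C₁ ^ 2 * (x * x) := by ring
          _ ≤ C₁ ^ 2 * (1 * x) := by gcongr
          _ ≤ 4 * C₁ ^ 2 * x := by nlinarith [mul_nonneg (sq_nonneg C₁) hx0]
      · intro k hk
        rw [enorm_sq_u3]
        apply ENNReal.ofReal_le_ofReal
        have h1 := (hD j hj2 k).2.2.1
        have e0 : (2 : ℝ) ^ (-(w : ℤ)) = ((2 : ℝ) ^ w)⁻¹ := by
          rw [zpow_neg, zpow_natCast]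
        rw [e0] at hk ⊢
        have hkb : 0 < (2 : ℝ) ^ k * b j := by positivity
        set x := ((2 : ℝ) ^ w)⁻¹ / ((2 : ℝ) ^ k * b j) with hx
        have hx0 : 0 ≤ x := by positivity
        have hx1 : x ≤ 1 := by
          rw [hx, div_le_one hkb]
          exact hk
        have e2 : ‖D j ((2 : ℝ) ^ k • ξ)‖ ≤ 2 * C₁ * x := by
          have e3 : 0 < (2 : ℝ) ^ w * ((2 : ℝ) ^ k * b j) := by positivity
          have e4 : ‖D j ((2 : ℝ) ^ k • ξ)‖ ≤ 2 * C₁ / ((2 : ℝ) ^ w * ((2 : ℝ) ^ k * b j)) := by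
            rw [le_div_iff₀ e3]
            exact h1
          refine e4.trans (le_of_eq ?_)
          rw [hx]
          field_simp
        calc ‖D j ((2 : ℝ) ^ k • ξ)‖ ^ 2 ≤ (2 * C₁ * x) ^ 2 := by gcongr
          _ = 4 * C₁ ^ 2 * (x * x) := by ring
          _ ≤ 4 * C₁ ^ 2 * (1 * x) := by gcongr
          _ = 4 * C₁ ^ 2 * x := by ring
  -- the far part
  have hfar : ∑' k : ℤ, ∑ j ∈ Nc, ‖D j ((2 : ℝ) ^ k • ξ)‖ₑ ^ 2 ≤
      ENNReal.ofReal ((8 * C₁ * C₂ + 64 * C₁ ^ 2) * ((T : ℝ) + u + 8)) := by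
    have hsum : ∀ k : ℤ, ∑ j ∈ Nc, ‖D j ((2 : ℝ) ^ k • ξ)‖ₑ ^ 2 =
        ENNReal.ofReal (∑ j ∈ Nc, ‖D j ((2 : ℝ) ^ k • ξ)‖ ^ 2) := by
      intro k
      rw [ENNReal.ofReal_sum_of_nonneg (fun j _ => by positivity)]
      exact Finset.sum_congr rfl (fun j _ => enorm_sq_u3 _)
    have hNsub : Nc ⊆ Finset.range (2 ^ u) := Finset.filter_subset _ _
    have hNcard : (Nc.card : ℝ) ≤ 2 ^ u := by
      have := Finset.card_le_card hNsub
      rw [Finset.card_range] at this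
      exact_mod_cast this
    have h2u : (1 : ℝ) ≤ 2 ^ u := one_le_pow₀ one_le_two
    have h2w : (2 : ℝ) ^ u ≤ 2 ^ w := pow_le_pow_right₀ one_le_two (by omega)
    have h := hOCT (fun k => ∑ j ∈ Nc, ‖D j ((2 : ℝ) ^ k • ξ)‖ₑ ^ 2) r
      (8 * C₁ * C₂ + 64 * C₁ ^ 2) (-(u : ℤ)) (T : ℤ) hr (by positivity) (by omega) ?_ ?_ ?_
    · refine h.trans (le_of_eq ?_)
      push_cast
      congr 1
      ring
    · intro k
      rw [hsum k]
      apply ENNReal.ofReal_le_ofReal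
      have hU' : ∀ v : ℕ, ∑ j ∈ Finset.range (2 ^ u),
          ‖Zh (s j) (c j) (m j) (m' j) ((2 : ℝ) ^ v) ((2 : ℝ) ^ k • ξ)‖ ≤ 2 * C₂ := by
        intro v
        have e1 := hU u s c m m' R K A σ hS ((2 : ℝ) ^ k • ξ) ((2 : ℝ) ^ v) (hne k)
          (by positivity)
        have e2 : 1 / Real.sqrt ((2 : ℝ) ^ v) ≤ 1 := by
          rw [div_le_one (by positivity)]
          rw [Real.one_le_sqrt]
          exact one_le_pow₀ one_le_two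
        calc _ ≤ C₂ * (1 + 1 / Real.sqrt ((2 : ℝ) ^ v)) := e1
          _ ≤ C₂ * (1 + 1) := by gcongr
          _ = 2 * C₂ := by ring
      have e3 : ∑ j ∈ Finset.range (2 ^ u), ‖D j ((2 : ℝ) ^ k • ξ)‖ ≤ 4 * C₂ := by
        calc ∑ j ∈ Finset.range (2 ^ u), ‖D j ((2 : ℝ) ^ k • ξ)‖
            ≤ ∑ j ∈ Finset.range (2 ^ u),
              (‖Zh (s j) (c j) (m j) (m' j) ((2 : ℝ) ^ w) ((2 : ℝ) ^ k • ξ)‖ +
                ‖Zh (s j) (c j) (m j) (m' j) ((2 : ℝ) ^ w') ((2 : ℝ) ^ k • ξ)‖) :=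
              Finset.sum_le_sum (fun j _ => norm_sub_le _ _)
          _ ≤ 4 * C₂ := by
              rw [Finset.sum_add_distrib]
              linarith [hU' w, hU' w']
      calc ∑ j ∈ Nc, ‖D j ((2 : ℝ) ^ k • ξ)‖ ^ 2
          ≤ ∑ j ∈ Finset.range (2 ^ u), ‖D j ((2 : ℝ) ^ k • ξ)‖ ^ 2 :=
            Finset.sum_le_sum_of_subset_of_nonneg hNsub (fun _ _ _ => by positivity)
        _ ≤ ∑ j ∈ Finset.range (2 ^ u), 2 * C₁ * ‖D j ((2 : ℝ) ^ k • ξ)‖ := by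
            refine Finset.sum_le_sum (fun j hj => ?_)
            have h1 := (hD j (Finset.mem_range.1 hj) k).1
            rw [sq]
            exact mul_le_mul_of_nonneg_right h1 (norm_nonneg _)
        _ ≤ 2 * C₁ * (4 * C₂) := by
            rw [← Finset.mul_sum]
            gcongr
        _ ≤ 8 * C₁ * C₂ + 64 * C₁ ^ 2 := by nlinarith [sq_nonneg C₁]
    · intro k hk
      rw [hsum k]
      apply ENNReal.ofReal_le_ofReal
      have e0 : (2 : ℝ) ^ (-(u : ℤ)) = ((2 : ℝ) ^ u)⁻¹ := by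
        rw [zpow_neg, zpow_natCast]
      rw [e0] at hk ⊢
      have e1 : (2 : ℝ) ^ k * r / ((2 : ℝ) ^ u)⁻¹ = (2 : ℝ) ^ u * ((2 : ℝ) ^ k * r) := by
        rw [div_inv_eq_mul]
        ring
      rw [e1]
      have hy0 : 0 ≤ (2 : ℝ) ^ k * r := by positivity
      have hy1 : (2 : ℝ) ^ k * r ≤ 1 := hk.trans (inv_le_one_of_one_le₀ h2u)
      set y := (2 : ℝ) ^ k * r with hy
      calc ∑ j ∈ Nc, ‖D j ((2 : ℝ) ^ k • ξ)‖ ^ 2 ≤ ∑ _j ∈ Nc, (4 * C₁ ^ 2 * y) := by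
            refine Finset.sum_le_sum (fun j hj => ?_)
            have h1 := (hD j (Finset.mem_range.1 (hNsub hj)) k).2.2.2
            calc ‖D j ((2 : ℝ) ^ k • ξ)‖ ^ 2 ≤ (2 * C₁ * y) ^ 2 := by gcongr
              _ = 4 * C₁ ^ 2 * (y * y) := by ring
              _ ≤ 4 * C₁ ^ 2 * (1 * y) := by gcongr
              _ = 4 * C₁ ^ 2 * y := by ring
        _ = (Nc.card : ℝ) * (4 * C₁ ^ 2 * y) := by rw [Finset.sum_const, nsmul_eq_mul]
        _ ≤ 2 ^ u * (4 * C₁ ^ 2 * y) := by gcongr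
        _ = 4 * C₁ ^ 2 * (2 ^ u * y) := by ring
        _ ≤ (8 * C₁ * C₂ + 64 * C₁ ^ 2) * (2 ^ u * y) := by
            apply mul_le_mul_of_nonneg_right _ (by positivity)
            nlinarith [sq_nonneg C₁, mul_pos hC₁0 hC₂]
    · intro k hk
      rw [hsum k]
      apply ENNReal.ofReal_le_ofReal
      have e0 : (2 : ℝ) ^ (T : ℤ) = (2 : ℝ) ^ T := zpow_natCast _ _
      rw [e0] at hk ⊢
      have hy0 : 0 < (2 : ℝ) ^ k * r := by positivity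
      set y := (2 : ℝ) ^ k * r with hy
      set x := (2 : ℝ) ^ T / y with hx
      have hx0 : 0 ≤ x := by positivity
      have hx1 : x ≤ 1 := by
        rw [hx, div_le_one hy0]
        exact hk
      have h2w0 : (0 : ℝ) < 2 ^ w := by positivity
      calc ∑ j ∈ Nc, ‖D j ((2 : ℝ) ^ k • ξ)‖ ^ 2 ≤ ∑ _j ∈ Nc, (64 * C₁ ^ 2 * (x / 2 ^ w)) := by
            refine Finset.sum_le_sum (fun j hj => ?_)
            have h1 := (hD j (Finset.mem_range.1 (hNsub hj)) k).2.2.1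
            have h2 := (Finset.mem_filter.1 hj).2
            rw [not_le] at h2
            have e2 : (2 : ℝ) ^ (-(T : ℤ)) = ((2 : ℝ) ^ T)⁻¹ := by
              rw [zpow_neg, zpow_natCast]
            rw [e2] at h2
            have h3 : y / (4 * (2 : ℝ) ^ T) ≤ (2 : ℝ) ^ k * b j := by
              have h4 : (2 : ℝ) ^ k * (((2 : ℝ) ^ T)⁻¹ * r / 4) ≤ (2 : ℝ) ^ k * b j := by
                gcongr
              refine le_trans (le_of_eq ?_) h4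
              rw [hy]
              field_simp
            have h5 : ‖D j ((2 : ℝ) ^ k • ξ)‖ * ((2 : ℝ) ^ w * (y / (4 * (2 : ℝ) ^ T))) ≤
                2 * C₁ := by
              refine le_trans ?_ h1
              gcongr
            have h6 : ‖D j ((2 : ℝ) ^ k • ξ)‖ ≤ 8 * C₁ * (x / 2 ^ w) := by
              have e3 : 0 < (2 : ℝ) ^ w * (y / (4 * (2 : ℝ) ^ T)) := by positivity
              have e4 : ‖D j ((2 : ℝ) ^ k • ξ)‖ ≤
                  2 * C₁ / ((2 : ℝ) ^ w * (y / (4 * (2 : ℝ) ^ T))) := by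
                rw [le_div_iff₀ e3]
                exact h5
              refine e4.trans (le_of_eq ?_)
              rw [hx]
              field_simp
              ring
            have hxw0 : 0 ≤ x / 2 ^ w := by positivity
            have hxw1 : x / 2 ^ w ≤ 1 := by
              rw [div_le_one h2w0]
              linarith
            calc ‖D j ((2 : ℝ) ^ k • ξ)‖ ^ 2 ≤ (8 * C₁ * (x / 2 ^ w)) ^ 2 := by gcongr
              _ = 64 * C₁ ^ 2 * ((x / 2 ^ w) * (x / 2 ^ w)) := by ring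
              _ ≤ 64 * C₁ ^ 2 * (1 * (x / 2 ^ w)) := by gcongr
              _ = 64 * C₁ ^ 2 * (x / 2 ^ w) := by ring
        _ = (Nc.card : ℝ) * (64 * C₁ ^ 2 * (x / 2 ^ w)) := by
            rw [Finset.sum_const, nsmul_eq_mul]
        _ ≤ 2 ^ w * (64 * C₁ ^ 2 * (x / 2 ^ w)) := by
            have : (Nc.card : ℝ) ≤ 2 ^ w := hNcard.trans h2w
            gcongr
        _ = 64 * C₁ ^ 2 * x := by field_simp
        _ ≤ (8 * C₁ * C₂ + 64 * C₁ ^ 2) * x := by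
            apply mul_le_mul_of_nonneg_right _ hx0
            nlinarith [mul_pos hC₁0 hC₂]
  -- assembly
  have hsplit : ∀ k : ℤ, ∑ j ∈ Finset.range (2 ^ u), ‖D j ((2 : ℝ) ^ k • ξ)‖ₑ ^ 2 =
      ∑ j ∈ Cl, ‖D j ((2 : ℝ) ^ k • ξ)‖ₑ ^ 2 + ∑ j ∈ Nc, ‖D j ((2 : ℝ) ^ k • ξ)‖ₑ ^ 2 := by
    intro k
    exact (Finset.sum_filter_add_sum_filter_not _ _ _).symm
  have hfinal : ∑' k : ℤ, ∑ j ∈ Finset.range (2 ^ u), ‖D j ((2 : ℝ) ^ k • ξ)‖ₑ ^ 2 ≤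
      ENNReal.ofReal ((9 * (8 * C₁ * C₂ + 64 * C₁ ^ 2) + 36 * C₁ ^ 2) *
        (T + W * (1 + (2 : ℝ) ^ u * (A * (T : ℝ) ^ (-(1 / σ)))))) := by
    rw [tsum_congr hsplit, ENNReal.tsum_add]
    have h1 : ∑' k : ℤ, ∑ j ∈ Cl, ‖D j ((2 : ℝ) ^ k • ξ)‖ₑ ^ 2 ≤
        ENNReal.ofReal (36 * C₁ ^ 2 * W * (1 + Q)) := by
      rw [Summable.tsum_finsetSum (fun j _ => ENNReal.summable)]
      calc ∑ j ∈ Cl, ∑' k : ℤ, ‖D j ((2 : ℝ) ^ k • ξ)‖ₑ ^ 2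
          ≤ ∑ _j ∈ Cl, ENNReal.ofReal (36 * C₁ ^ 2 * W) := Finset.sum_le_sum hclose
        _ = ENNReal.ofReal (Cl.card * (36 * C₁ ^ 2 * W)) := by
            rw [Finset.sum_const, nsmul_eq_mul, ENNReal.ofReal_mul (Nat.cast_nonneg _),
              ENNReal.ofReal_natCast]
        _ ≤ ENNReal.ofReal (36 * C₁ ^ 2 * W * (1 + Q)) := by
            apply ENNReal.ofReal_le_ofReal
            calc (Cl.card : ℝ) * (36 * C₁ ^ 2 * W) ≤ (1 + Q) * (36 * C₁ ^ 2 * W) := by gcongr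
              _ = 36 * C₁ ^ 2 * W * (1 + Q) := by ring
    refine (add_le_add h1 hfar).trans ?_
    rw [← ENNReal.ofReal_add (by positivity) (by positivity)]
    apply ENNReal.ofReal_le_ofReal
    rw [← hQ]
    set B := 8 * C₁ * C₂ + 64 * C₁ ^ 2 with hB
    have hB0 : 0 ≤ B := by positivity
    have e1 : (T : ℝ) + u + 8 ≤ 9 * (T + W) := by linarith
    have e2 : B * ((T : ℝ) + u + 8) ≤ B * (9 * (T + W)) := by gcongr
    have e3 : 0 ≤ (W : ℝ) * Q := by positivity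
    have e4 : 0 ≤ C₁ ^ 2 * (T : ℝ) := by positivity
    have e5 : 0 ≤ B * ((W : ℝ) * Q) := by positivity
    nlinarith [e2, e3, e4, e5]
  exact hfinal

end Pool.Agent.Helper4.RG
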